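import Pool.Agent.V11212.XI.Step

set_option autoImplicit false

namespace Pool.Agent.Results.MP_848d58_co.AllGaps

open Pool.Agent.V11212.XI

/-- Every pair `1 ≤ m < n` is the pair (mapping index, cross-index of the face poset) of some
finite free `G`-simplicial complex, for every nontrivial finite group `G`. -/
theorem result (G : Type) [Group G] [Fintype G] [Nontrivial G] (m n : ℕ) (hm : 1 ≤ m)
    (hmn : m < n) :
    ∃ (V : Type) (_ : Fintype V) (_ : MulAction G V) (K : Set (Set V)),
      IsGC G K ∧ (∀ v, {v} ∈ K) ∧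
      (∀ (g : G), ∀ x ∈ Geo K, mv g x = x → g = 1) ∧
      IsLeast {k | TopLe G K k} m ∧
      IsLeast {k | FaceLe G K k} n := by
  obtain ⟨d, rfl⟩ : ∃ d, n = m + d := ⟨n - m, by omega⟩
  obtain ⟨V, i1, i2, K, h⟩ := goodK_all G m d hm
  exact ⟨V, i1, i2, K, h.gc, h.pts, fun g x hx hg => h.free g x hx hg,
    ⟨h.top, fun k hk => h.topl k hk⟩, ⟨h.face, fun k hk => h.facel k hk⟩⟩

end Pool.Agent.Results.MP_848d58_co.AllGaps
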